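import Pool.Agent.H37.CNW.Stmts
import Pool.Agent.H18.CND.HBP

/-!
# Row `XD1` of the board `cnw`: the jump of `B / N`
-/

set_option autoImplicit false

namespace Pool.CND

open HBP18 in
theorem xd1_thm (hFXP : S_FXP) (hRST : S_RST) (hART : S_ART) (hHER : S_HER) (hIRR : S_IRR)
    (hLO2 : S_LO2) (hSAM : S_SAM) (hTMO : S_TMO) (hINJ : S_INJ) : S_XD1 := by
  classical
  intro p k L G _ _ _ _ _ P ρ B N hp hchar hinj hNB hBfix hn hc
  have hNfix : ∀ n ∈ N, Fixes P (ρ n) := fun n hn' => hBfix n (hNB hn')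
  have hNpos : (0 : ℤ) < Nat.card N := by exact_mod_cast Nat.card_pos
  obtain ⟨F, hF, Q, hQ⟩ := hFXP k L G P ρ N hinj hNfix
  -- an element outside `N`
  have hex : ∃ g0 ∈ B, g0 ∉ N := by
    by_contra hcon
    push Not at hcon
    have h1 : B = N := le_antisymm hcon hNB
    rw [h1] at hc
    have h3 : 0 < Nat.card N := Nat.card_pos
    have h4 := hp.two_le
    nlinarith
  obtain ⟨g0, hg0, hg0N⟩ := hex
  obtain ⟨hpowN, hcyc⟩ := cyc hp N B hNB hc hn g0 hg0 hg0N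
  -- the restrictions
  have hres : ∀ g ∈ B, ∃ γ : F ≃ₐ[k] F, (∀ x : F, ((γ x : F) : L) = ρ g x) ∧ Fixes Q γ := by
    intro g hg
    refine hRST k L G P ρ N F Q g hF hQ (hn g hg) (fun n hn' => ?_) (hBfix g hg)
    have := hn g⁻¹ (B.inv_mem hg) n hn'
    rwa [inv_inv] at this
  have hne1 : ∀ g ∈ B, g ∉ N → ∀ γ : F ≃ₐ[k] F, (∀ x : F, ((γ x : F) : L) = ρ g x) → γ ≠ 1 := by
    intro g _ hgN γ hγ h1
    refine hgN (hART k L G ρ N g hinj fun x hx => ?_)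
    have h2 := hγ ⟨x, (hF x).2 hx⟩
    rw [h1, AlgEquiv.one_apply] at h2
    exact h2.symm
  have hher : ∀ g ∈ B, g ∉ N → ∀ γ : F ≃ₐ[k] F, (∀ x : F, ((γ x : F) : L) = ρ g x) → Fixes Q γ →
      sm (fun x => P.b (ρ x)) {x | g⁻¹ * x ∈ N} = Nat.card N * Q.b γ := by
    intro g hg hgN γ hγ hγf
    exact hHER k L G P ρ N F Q g γ hinj hNfix hF hQ hgN (hBfix g hg) hγ hγf
      (hne1 g hg hgN γ hγ)
  obtain ⟨γ, hγ, hγf⟩ := hres g0 hg0
  have hpows : ∀ (j : ℕ) (x : F), (((γ ^ j) x : F) : L) = ρ (g0 ^ j) x := by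
    intro j
    induction j with
    | zero =>
      intro x
      rw [pow_zero, pow_zero, map_one, AlgEquiv.one_apply, AlgEquiv.one_apply]
    | succ j ih =>
      intro x
      rw [pow_succ, pow_succ, map_mul, AlgEquiv.mul_apply, AlgEquiv.mul_apply, ih, hγ]
  have hγp : γ ^ p = 1 := by
    apply AlgEquiv.ext
    intro x
    apply Subtype.ext
    rw [hpows, AlgEquiv.one_apply]
    exact (hF x).1 x.2 _ hpowN
  have hγ1 : γ ≠ 1 := hne1 g0 hg0 hg0N γ hγ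
  have hb : ∀ g ∈ B, g ∉ N → ∀ γ' : F ≃ₐ[k] F, (∀ x : F, ((γ' x : F) : L) = ρ g x) →
      Q.b γ' = Q.b γ := by
    intro g hg hgN γ' hγ'
    obtain ⟨a, ha, haN⟩ := hcyc g hg hgN
    have h1 : γ' = γ ^ a := by
      apply AlgEquiv.ext
      intro x
      apply Subtype.ext
      rw [hγ', hpows]
      have h2 : g = g0 ^ a * ((g0 ^ a)⁻¹ * g) := by rw [mul_inv_cancel_left]
      rw [h2, map_mul, AlgEquiv.mul_apply, (hF x).1 x.2 _ haN]
    rw [h1, hSAM p k F Q γ a hp hγf hγp hγ1 ha]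
  have hall : ∀ g ∈ B, g ∉ N →
      sm (fun x => P.b (ρ x)) {x | g⁻¹ * x ∈ N} = Nat.card N * Q.b γ := by
    intro g hg hgN
    obtain ⟨γ', hγ', hγf'⟩ := hres g hg
    rw [hher g hg hgN γ' hγ' hγf', hb g hg hgN γ' hγ']
  have hu : γ Q.pi ≠ Q.pi := fun h => hγ1 (hINJ k F Q γ Q.pi hγf Q.pi_ne Q.ord_pi h)
  -- positivity
  have hram0 : γ ∈ ram Q (MonoidHom.id (F ≃ₐ[k] F)) 0 := by
    refine ⟨hγf, fun u hu0 hu1 => ?_⟩
    by_cases h1 : γ u = u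
    · exact Or.inl h1
    · right
      have h2 : Q.Ge (γ u - u) 1 :=
        Q.ge_sub (Or.inr (by rw [hγf u hu0, hu1])) (Or.inr (by rw [hu1]))
      have h3 := h2.resolve_left (sub_ne_zero.2 h1)
      simpa using h3
  have hram1 : γ ^ p ∈ ram Q (MonoidHom.id (F ≃ₐ[k] F)) 1 := by
    rw [hγp]
    exact ⟨Fixes.one, fun u _ _ => Or.inl rfl⟩
  have hpos : 1 ≤ Q.b γ := by
    have h1 := (hTMO p k F (F ≃ₐ[k] F) Q (MonoidHom.id (F ≃ₐ[k] F)) hp hchar γ hram0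
      hram1).2 Q.pi Q.pi_ne Q.ord_pi
    have h2 : ((1 : ℕ) : ℤ) + 1 ≤ Q.ord (γ Q.pi - Q.pi) := h1.resolve_left hu
    unfold Place.b
    push_cast at h2
    linarith
  have hordb : Q.ord (γ Q.pi - Q.pi) = Q.b γ + 1 := by
    unfold Place.b
    ring
  refine ⟨Q.b γ, hpos, ?_, hall, ?_⟩
  · refine hIRR p k F Q γ Q.pi (Q.b γ) 1 hp hchar hγf Q.pi_ne Q.ord_pi hpos hu hordb ?_
    rw [pow_one]
    exact hγp
  · intro y c g₁ n hg₁ hyN hc0 hy0 hgy hoy hpn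
    have hcL : algebraMap k L c ≠ 0 := (map_ne_zero (algebraMap k L)).2 hc0
    have hg₁N : g₁ ∉ N := by
      intro h1
      have h2 := hyN g₁ h1
      rw [hgy] at h2
      exact hcL (by linear_combination h2)
    obtain ⟨γ₁, hγ₁, hγ₁f⟩ := hres g₁ hg₁
    have hγ₁1 : γ₁ ≠ 1 := hne1 g₁ hg₁ hg₁N γ₁ hγ₁
    have hbb := hb g₁ hg₁ hg₁N γ₁ hγ₁
    have hu₁ : γ₁ Q.pi ≠ Q.pi := fun h => hγ₁1 (hINJ k F Q γ₁ Q.pi hγ₁f Q.pi_ne Q.ord_pi h)
    let Y : F := ⟨y, (hF y).2 hyN⟩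
    have hYv : (Y : L) = y := rfl
    have hY0 : Y ≠ 0 := by
      intro h
      apply hy0
      rw [← hYv, h]
      rfl
    have hYo : Q.ord Y = -(n : ℤ) := by
      have h1 := hQ Y hY0
      rw [hYv, hoy] at h1
      have h2 : (Nat.card N : ℤ) * Q.ord Y = Nat.card N * (-(n : ℤ)) := by
        rw [h1]
        push_cast
        ring
      exact mul_left_cancel₀ hNpos.ne' h2
    have hpY : ¬ (p : ℤ) ∣ Q.ord Y := by
      rw [hYo, dvd_neg]
      intro h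
      exact hpn (by exact_mod_cast h)
    have h1 := (hLO2 p k F Q γ₁ Q.pi (Q.b γ₁) hp hchar hγ₁f Q.pi_ne Q.ord_pi
      (by rw [hbb]; exact hpos) hu₁ (by unfold Place.b; ring) Y hY0).1 hpY
    have h2 : γ₁ Y - Y = algebraMap k F c := by
      apply Subtype.ext
      show ((γ₁ Y : F) : L) - (Y : L) = algebraMap k L c
      rw [hγ₁, hYv, hgy]
      ring
    have h3 := h1.2
    rw [h2, Q.ord_const c hc0, hYo, hbb] at h3
    linarith

end Pool.CND
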